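import Pool.Agent.Work.MP_db9399_bg.Base

/-! THEOREM BIG, block TRF: transfer of an almost extremal pair of a pattern. -/

set_option autoImplicit false

namespace Pool.Agent.Work.MP_db9399_bg.helper96

open Finset Classical
open Pool.Agent.Work.MP_db9399_all (nb)
open Pool.Agent.Work.MP_db9399_px (LWalk hit ee)
open Pool.Agent.Work.MP_db9399_sc (cut Crit Conn Env Fam Rnd Hv)
open Pool.Agent.Work.MP_db9399_bg

universe u

section basic
variable {V : Type u} [Fintype V] {G : SimpleGraph V} {T : Type} {lab : V → T}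

theorem ee_nonneg (A B : Finset V) : 0 ≤ ee G A B :=
  Finset.sum_nonneg (fun _ _ => Nat.cast_nonneg _)

theorem ee_eq (A B : Finset V) :
    ee G A B = ∑ a ∈ A, ∑ b ∈ B, (if G.Adj a b then (1 : ℝ) else 0) := by
  unfold ee
  refine Finset.sum_congr rfl (fun a _ => ?_)
  rw [Finset.sum_boole]
  congr 2
  ext w
  simp only [mem_inter, mem_nb, mem_filter]
  tauto

theorem ee_symm (A B : Finset V) : ee G A B = ee G B A := by
  rw [ee_eq, ee_eq, Finset.sum_comm]
  refine Finset.sum_congr rfl (fun a _ => Finset.sum_congr rfl (fun b _ => ?_))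
  simp only [G.adj_comm]

theorem ee_mono {A A' B B' : Finset V} (hA : A ⊆ A') (hB : B ⊆ B') :
    ee G A B ≤ ee G A' B' := by
  unfold ee
  calc ∑ a ∈ A, ((nb G a ∩ B).card : ℝ) ≤ ∑ a ∈ A, ((nb G a ∩ B').card : ℝ) := by
        refine Finset.sum_le_sum (fun a _ => ?_)
        exact_mod_cast card_le_card (inter_subset_inter_left hB)
    _ ≤ ∑ a ∈ A', ((nb G a ∩ B').card : ℝ) :=
        Finset.sum_le_sum_of_subset_of_nonneg hA (fun _ _ _ => Nat.cast_nonneg _)

theorem ee_le_card {A B : Finset V} {c : ℝ} (h : ∀ v, ((nb G v ∩ B).card : ℝ) ≤ c) :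
    ee G A B ≤ A.card * c := by
  unfold ee
  calc ∑ a ∈ A, ((nb G a ∩ B).card : ℝ) ≤ ∑ _a ∈ A, c := Finset.sum_le_sum (fun a _ => h a)
    _ = A.card * c := by rw [Finset.sum_const, nsmul_eq_mul]

theorem ee_union_right (A B B' : Finset V) (C : Finset V) (h : C ⊆ B ∪ B') :
    ee G A C ≤ ee G A B + ee G A B' := by
  unfold ee
  rw [← Finset.sum_add_distrib]
  refine Finset.sum_le_sum (fun a _ => ?_)
  have h1 : nb G a ∩ C ⊆ (nb G a ∩ B) ∪ (nb G a ∩ B') := by
    intro w hw
    rw [mem_inter] at hw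
    have := h hw.2
    rw [mem_union] at this ⊢
    rw [mem_inter, mem_inter]
    tauto
  have h2 := (card_le_card h1).trans (card_union_le _ _)
  exact_mod_cast h2

theorem ee_union_left (A A' B : Finset V) (C : Finset V) (h : C ⊆ A ∪ A') :
    ee G C B ≤ ee G A B + ee G A' B := by
  rw [ee_symm C B, ee_symm A B, ee_symm A' B]
  exact ee_union_right B A A' C h

theorem sum_cl (A : Finset V) (P : Finset T) (f : V → ℝ) :
    ∑ a ∈ A ∩ cl lab P, f a = ∑ x ∈ P, ∑ a ∈ A ∩ cl lab {x}, f a := by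
  rw [← Finset.sum_fiberwise_of_maps_to (s := A ∩ cl lab P) (t := P) (g := lab)
    (fun a ha => mem_cl.mp (mem_inter.mp ha).2)]
  refine Finset.sum_congr rfl (fun x hx => ?_)
  refine Finset.sum_congr ?_ (fun _ _ => rfl)
  ext v
  simp only [mem_filter, mem_inter, mem_cl, mem_singleton]
  constructor
  · rintro ⟨⟨h1, _⟩, h3⟩
    exact ⟨h1, h3⟩
  · rintro ⟨h1, h2⟩
    exact ⟨⟨h1, by rw [h2]; exact hx⟩, h2⟩

theorem card_cl (A : Finset V) (P : Finset T) :
    ((A ∩ cl lab P).card : ℝ) = ∑ x ∈ P, ((A ∩ cl lab {x}).card : ℝ) := by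
  have := sum_cl (lab := lab) A P (fun _ => (1 : ℝ))
  simpa using this

theorem ee_cl_left (A B : Finset V) (P : Finset T) :
    ee G (A ∩ cl lab P) B = ∑ x ∈ P, ee G (A ∩ cl lab {x}) B := by
  unfold ee
  exact sum_cl A P _

theorem sdiff_cl (B : Finset V) (Q : Finset T) : cl lab Q \ B = (univ \ B) ∩ cl lab Q := by
  ext v
  simp only [mem_sdiff, mem_inter, mem_univ, true_and]
  tauto

theorem ee_cl_right (A B : Finset V) (Q : Finset T) :
    ee G A (cl lab Q \ B) = ∑ y ∈ Q, ee G A (cl lab {y} \ B) := by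
  rw [ee_symm, sdiff_cl, ee_cl_left]
  refine Finset.sum_congr rfl (fun y _ => ?_)
  rw [ee_symm, sdiff_cl]

theorem cl_univ [Fintype T] : cl lab (univ : Finset T) = univ := by
  ext v
  simp [cl]

end basic

section core
variable {V : Type u} [Fintype V] {G : SimpleGraph V} {T : Type} [Fintype T] {lab : V → T}

/-- the pair behaves well -/
def OKp (G : SimpleGraph V) (lab : V → T) (e d X0 M : ℝ) (A B : Finset V) : Prop :=
  (∀ x y, ee G (A ∩ cl lab {x}) (cl lab {y} \ B) ≤ 19 * e * d * X0 / M ^ 2) ∧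
    ∀ x, |((A ∩ cl lab {x}).card : ℝ) - A.card / M| ≤ e * X0 / M

theorem okp_small {e X0 M : ℝ} {d : ℕ} (hM : 1 ≤ M) (he : 0 ≤ e) (hX0 : 0 ≤ X0)
    (hd : ∀ v, (nb G v).card ≤ d) {A B : Finset V}
    (h : (A.card : ℝ) ≤ e * X0 / M ^ 2) : OKp G lab e d X0 M A B := by
  have hM0 : 0 < M := by linarith
  have hpos : 0 ≤ e * X0 / M ^ 2 := by positivity
  constructor
  · intro x y
    have h1 : ee G (A ∩ cl lab {x}) (cl lab {y} \ B) ≤ ((A ∩ cl lab {x}).card : ℝ) * d := by
      refine ee_le_card (fun v => ?_)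
      have := (card_le_card (inter_subset_left (s₁ := nb G v) (s₂ := cl lab {y} \ B))).trans (hd v)
      exact_mod_cast this
    have h2 : ((A ∩ cl lab {x}).card : ℝ) ≤ A.card := by
      exact_mod_cast card_le_card inter_subset_left
    have hdn : (0 : ℝ) ≤ d := Nat.cast_nonneg _
    calc ee G (A ∩ cl lab {x}) (cl lab {y} \ B) ≤ ((A ∩ cl lab {x}).card : ℝ) * d := h1
      _ ≤ (e * X0 / M ^ 2) * d := mul_le_mul_of_nonneg_right (h2.trans h) hdn
      _ ≤ 19 * ((e * X0 / M ^ 2) * d) := by nlinarith [mul_nonneg hpos hdn]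
      _ = 19 * e * d * X0 / M ^ 2 := by ring
  · intro x
    have h2 : ((A ∩ cl lab {x}).card : ℝ) ≤ A.card := by
      exact_mod_cast card_le_card inter_subset_left
    have h3 : (0 : ℝ) ≤ ((A ∩ cl lab {x}).card : ℝ) := Nat.cast_nonneg _
    have h4 : (A.card : ℝ) / M ≤ A.card := div_le_self (Nat.cast_nonneg _) hM
    have h5 : (0 : ℝ) ≤ (A.card : ℝ) / M := by positivity
    have h6 : e * X0 / M ^ 2 ≤ e * X0 / M := by
      apply div_le_div_of_nonneg_left (by positivity) hM0
      nlinarith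
    rw [abs_le]
    constructor <;> linarith

theorem den_single (x : T) : den ({x} : Finset T) = 1 / (Fintype.card T : ℝ) := by
  unfold den
  rw [card_singleton]
  norm_num

/-- the main estimate for one pair -/
theorem okp_main {e X M p σ : ℝ} {d : ℕ} (hM : 1 ≤ M) (hcM : (Fintype.card T : ℝ) = M)
    (he : 0 ≤ e) (he1 : e ≤ 1 / 100) (hX : 0 ≤ X) (hp : 1 / M ≤ p) (hp1 : p ≤ 1) (hσ : 0 ≤ σ)
    (hσ1 : σ ≤ e / (100 * M ^ 2)) {P Q : Finset T} (hP : den P = p)
    {A B : Finset V} (hne : P.Nonempty) (hPQ : P.card = Q.card)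
    (hG : ∀ P Q : Finset T, P.card = Q.card → P.Nonempty → Good G d σ lab P Q A B)
    (hA : ((A ∩ cl lab P).card : ℝ) ≤ 2 * X) (hB : ((B ∩ cl lab Q).card : ℝ) ≤ 2 * X)
    (hE : ee G (A ∩ cl lab P) (cl lab Q \ B) ≤ 17 * e * p * d * X) :
    OKp G lab e d (X / p) M A B := by
  have hM0 : 0 < M := by linarith
  have hp0 : 0 < p := lt_of_lt_of_le (by positivity) hp
  have hdn : (0 : ℝ) ≤ d := Nat.cast_nonneg _
  have hpM : 1 ≤ p * M := by
    have := mul_le_mul_of_nonneg_right hp hM0.le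
    rwa [one_div, inv_mul_cancel₀ hM0.ne'] at this
  have hM2 : (0 : ℝ) < M ^ 2 := by positivity
  have hσM : σ * (100 * M ^ 2) ≤ e := by
    have := mul_le_mul_of_nonneg_right hσ1 (by positivity : (0 : ℝ) ≤ 100 * M ^ 2)
    rwa [div_mul_cancel₀ _ (by positivity)] at this
  have hσp : σ * 100 ≤ e * p ^ 2 := by
    have h1 : 1 ≤ (p * M) ^ 2 := one_le_pow₀ hpM
    have h2 : 0 ≤ σ * 100 := by positivity
    nlinarith [mul_nonneg h2 (by linarith : 0 ≤ (p * M) ^ 2 - 1), mul_nonneg (sq_nonneg p) (sub_nonneg.mpr hσM)]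
  obtain ⟨g1, g2, g3⟩ := hG P Q hPQ hne
  rw [hP] at g1 g2 g3
  set s : ℝ := (A.card : ℝ) + B.card with hs
  have hs0 : 0 ≤ s := by positivity
  have hps : p * s ≤ 8 * X := by
    have h1 := (abs_le.mp g2).1
    have h2 := (abs_le.mp g3).1
    have h3 : (p - 2 * σ) * s ≤ 4 * X := by
      rw [hs] at *
      nlinarith
    have h4 : σ * 4 ≤ p := by nlinarith [mul_nonneg he (sq_nonneg p)]
    nlinarith
  have hs8 : s ≤ 8 * (X / p) := by
    rw [← mul_div_assoc, le_div_iff₀ hp0]
    linarith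
  have hX0 : 0 ≤ X / p := by positivity
  -- the energy of the pair
  have hen : ee G A (univ \ B) ≤ 18 * e * d * (X / p) := by
    have h1 := (abs_le.mp g1).1
    have h2 : p ^ 2 * ee G A (univ \ B) ≤ 17 * e * p * d * X + σ * d * s := by linarith
    have h3 : σ * d * s ≤ e * p ^ 2 * d * (X / p) := by
      have : σ * s ≤ e * p ^ 2 * (X / p) := by
        calc σ * s ≤ σ * (8 * (X / p)) := mul_le_mul_of_nonneg_left hs8 hσ
          _ ≤ (σ * 100) * (X / p) := by nlinarith
          _ ≤ e * p ^ 2 * (X / p) := mul_le_mul_of_nonneg_right hσp hX0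
      nlinarith
    have h4 : 17 * e * p * d * X = p ^ 2 * (17 * e * d * (X / p)) := by
      field_simp
    have h5 : p ^ 2 * ee G A (univ \ B) ≤ p ^ 2 * (18 * e * d * (X / p)) := by
      rw [h4] at h2
      nlinarith
    exact le_of_mul_le_mul_left h5 (by positivity)
  have hden : ∀ x : T, den ({x} : Finset T) = 1 / M := by
    intro x
    rw [den_single, hcM]
  have hσs : σ * s ≤ e * (X / p) / M ^ 2 := by
    rw [le_div_iff₀ hM2]
    calc σ * s * M ^ 2 ≤ σ * (8 * (X / p)) * M ^ 2 := by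
          apply mul_le_mul_of_nonneg_right _ hM2.le
          exact mul_le_mul_of_nonneg_left hs8 hσ
      _ = (σ * (8 * M ^ 2)) * (X / p) := by ring
      _ ≤ (σ * (100 * M ^ 2)) * (X / p) := by
          apply mul_le_mul_of_nonneg_right _ hX0
          apply mul_le_mul_of_nonneg_left _ hσ
          linarith
      _ ≤ e * (X / p) := mul_le_mul_of_nonneg_right hσM hX0
  constructor
  · intro x y
    obtain ⟨k1, _, _⟩ := hG {x} {y} (by rw [card_singleton, card_singleton]) (singleton_nonempty x)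
    rw [hden] at k1
    have h1 := (abs_le.mp k1).2
    have h2 : (1 / M) ^ 2 * ee G A (univ \ B) ≤ (1 / M) ^ 2 * (18 * e * d * (X / p)) :=
      mul_le_mul_of_nonneg_left hen (by positivity)
    have h3 : σ * d * s ≤ e * (X / p) / M ^ 2 * d := by nlinarith
    have h4 : 19 * e * d * (X / p) / M ^ 2 =
        (1 / M) ^ 2 * (18 * e * d * (X / p)) + e * (X / p) / M ^ 2 * d := by
      field_simp
      ring
    rw [h4]
    linarith
  · intro x
    obtain ⟨_, k2, _⟩ := hG {x} {x} rfl (singleton_nonempty x)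
    rw [hden] at k2
    have h1 : σ * s ≤ e * (X / p) / M := by
      refine hσs.trans ?_
      apply div_le_div_of_nonneg_left (by positivity) hM0
      nlinarith
    have h2 : (A.card : ℝ) / M = 1 / M * A.card := by ring
    rw [h2]
    exact k2.trans h1

/-- two steps -/
theorem two_step {e X0 M : ℝ} {d : ℕ} (hM : 1 ≤ M) (hcM : (Fintype.card T : ℝ) = M)
    (hd0 : 0 < d) (hlow : ∀ v, (d : ℝ) / 2 ≤ ((nb G v).card : ℝ)) {A B A' : Finset V}
    (h1 : OKp G lab e d X0 M A B) (h2 : OKp G lab e d X0 M B A') (x : T) :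
    (((A \ A') ∩ cl lab {x}).card : ℝ) ≤ 80 * (e * X0 / M) := by
  have hM0 : 0 < M := by linarith
  have hdp : (0 : ℝ) < d := by exact_mod_cast hd0
  set D := (A \ A') ∩ cl lab {x} with hD
  have e1 : (D.card : ℝ) * (d / 2) ≤ ee G D univ := by
    unfold ee
    rw [← nsmul_eq_mul, ← Finset.sum_const]
    refine Finset.sum_le_sum (fun v _ => ?_)
    rw [inter_univ]
    exact hlow v
  have e2 : ee G D univ ≤ ee G D (univ \ B) + ee G D B := by
    refine ee_union_right D _ _ _ (fun v _ => ?_)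
    simp only [mem_union, mem_sdiff, mem_univ, true_and]
    tauto
  have e3 : ee G D (univ \ B) ≤ M * (19 * e * d * X0 / M ^ 2) := by
    calc ee G D (univ \ B) ≤ ee G (A ∩ cl lab {x}) (cl lab univ \ B) := by
          rw [cl_univ]
          exact ee_mono (inter_subset_inter_right sdiff_subset) (Subset.refl _)
      _ = ∑ y, ee G (A ∩ cl lab {x}) (cl lab {y} \ B) := ee_cl_right _ _ _
      _ ≤ ∑ _y : T, (19 * e * d * X0 / M ^ 2) := Finset.sum_le_sum (fun y _ => h1.1 x y)
      _ = M * (19 * e * d * X0 / M ^ 2) := by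
          rw [Finset.sum_const, nsmul_eq_mul, card_univ, hcM]
  have e4 : ee G D B ≤ M * (19 * e * d * X0 / M ^ 2) := by
    calc ee G D B = ee G B D := ee_symm _ _
      _ ≤ ee G (B ∩ cl lab univ) (cl lab {x} \ A') := by
          rw [cl_univ, inter_univ]
          refine ee_mono (Subset.refl _) (fun v hv => ?_)
          rw [hD, mem_inter, mem_sdiff] at hv
          rw [mem_sdiff]
          exact ⟨hv.2, hv.1.2⟩
      _ = ∑ y, ee G (B ∩ cl lab {y}) (cl lab {x} \ A') := ee_cl_left _ _ _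
      _ ≤ ∑ _y : T, (19 * e * d * X0 / M ^ 2) := Finset.sum_le_sum (fun y _ => h2.1 y x)
      _ = M * (19 * e * d * X0 / M ^ 2) := by
          rw [Finset.sum_const, nsmul_eq_mul, card_univ, hcM]
  have e5 : (D.card : ℝ) * (d / 2) ≤ 38 * (e * X0 / M) * d := by
    have : M * (19 * e * d * X0 / M ^ 2) = 19 * (e * X0 / M) * d := by
      field_simp
    rw [this] at e3 e4
    linarith
  have e6 : (D.card : ℝ) ≤ 76 * (e * X0 / M) := by
    have : (D.card : ℝ) * (d / 2) ≤ (76 * (e * X0 / M)) * (d / 2) := by linarith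
    exact le_of_mul_le_mul_right this (by positivity)
  have e7 : 0 ≤ e * X0 / M := by
    have : (0 : ℝ) ≤ D.card := Nat.cast_nonneg _
    linarith
  linarith

/-- many double steps -/
theorem chain {β : Type} {R : β → β → Prop} {e X0 M : ℝ} {d : ℕ} (hM : 1 ≤ M)
    (hcM : (Fintype.card T : ℝ) = M)
    (hd0 : 0 < d) (hlow : ∀ v, (d : ℝ) / 2 ≤ ((nb G v).card : ℝ)) {A B : β → Finset V}
    (h1 : ∀ b b', R b b' → OKp G lab e d X0 M (A b) (B b'))
    (h2 : ∀ b b', R b b' → OKp G lab e d X0 M (B b) (A b')) (f : ℕ → β) (x : T) :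
    ∀ j : ℕ, (∀ i < 2 * j, R (f i) (f (i + 1))) →
      (((A (f 0) \ A (f (2 * j))) ∩ cl lab {x}).card : ℝ) ≤ j * (80 * (e * X0 / M)) := by
  intro j
  induction j with
  | zero =>
    intro _
    simp
  | succ j ih =>
    intro hR
    have e1 := ih (fun i hi => hR i (by omega))
    have r1 : R (f (2 * j)) (f (2 * j + 1)) := hR _ (by omega)
    have r2 : R (f (2 * j + 1)) (f (2 * j + 1 + 1)) := hR _ (by omega)
    have e2 := two_step hM hcM hd0 hlow (h1 _ _ r1) (h2 _ _ r2) x
    have e3 : 2 * (j + 1) = 2 * j + 1 + 1 := by ring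
    rw [e3]
    have hsub : (A (f 0) \ A (f (2 * j + 1 + 1))) ∩ cl lab {x} ⊆
        ((A (f 0) \ A (f (2 * j))) ∩ cl lab {x}) ∪
          ((A (f (2 * j)) \ A (f (2 * j + 1 + 1))) ∩ cl lab {x}) := by
      intro v hv
      simp only [mem_inter, mem_sdiff, mem_union] at hv ⊢
      tauto
    have e4 := (card_le_card hsub).trans (card_union_le _ _)
    have e5 : (((A (f 0) \ A (f (2 * j + 1 + 1))) ∩ cl lab {x}).card : ℝ) ≤
        (((A (f 0) \ A (f (2 * j))) ∩ cl lab {x}).card : ℝ) +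
          (((A (f (2 * j)) \ A (f (2 * j + 1 + 1))) ∩ cl lab {x}).card : ℝ) := by
      exact_mod_cast e4
    push_cast
    linarith

theorem Near.trans' {A B C : Finset V} {x y : ℝ} (h1 : Near A B x) (h2 : Near B C y) :
    Near A C (x + y) := by
  unfold Near at *
  have e1 : A \ C ⊆ (A \ B) ∪ (B \ C) := by
    intro v hv
    simp only [mem_sdiff, mem_union] at hv ⊢
    tauto
  have e2 : C \ A ⊆ (B \ A) ∪ (C \ B) := by
    intro v hv
    simp only [mem_sdiff, mem_union] at hv ⊢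
    tauto
  have e3 : ((A \ C).card : ℝ) ≤ (A \ B).card + (B \ C).card := by
    exact_mod_cast (card_le_card e1).trans (card_union_le _ _)
  have e4 : ((C \ A).card : ℝ) ≤ (B \ A).card + (C \ B).card := by
    exact_mod_cast (card_le_card e2).trans (card_union_le _ _)
  linarith

/-- one pair of codes -/
theorem pair_ok {e M p σ c1 K θ : ℝ} {d k : ℕ} (hM : 1 ≤ M)
    (hcM : (Fintype.card T : ℝ) = M)
    (he : 0 < e) (he1 : e ≤ 1 / 100) (hp : 1 / M ≤ p) (hp1 : p ≤ 1) (hσ : 0 < σ)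
    (hσ1 : σ ≤ e / (100 * M ^ 2)) (hd3 : 3 ≤ d) (hdeg : ∀ v, (nb G v).card ≤ d)
    (hlab : LabP G d σ c1 lab) (hc1 : 0 < c1) (hc1K : c1 * K ≤ e / M ^ 2)
    {P Q : Finset T} (hP : den P = p) (hQ : den Q = p) (hne : P.Nonempty)
    (hPQ : P.card = Q.card) {X A1 A2 R S : Finset V} {w : ℕ → V} (hw : LWalk G k w) (hk : 1 ≤ k)
    (hθ : 0 ≤ θ) (hcov : ∀ v ∈ R ∪ S, ∃ i ≤ k, w i = v)
    (hkd : (k : ℝ) * d ≤ K * (Real.log d * X.card)) (hA1 : A1 ⊆ X) (hA2 : A2 ⊆ X)
    (hN1 : Near (A1 ∩ cl lab P) (hit G θ S ∩ cl lab P) (4 * e * X.card))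
    (hN2 : Near (A2 ∩ cl lab Q) (hit G θ R ∩ cl lab Q) (4 * e * X.card))
    (hE : ee G (A1 ∩ cl lab P) (cl lab Q \ A2) ≤ e * (p * d) * X.card) :
    OKp G lab e d (X.card / p) M (hit G θ S) (hit G θ R) := by
  have hM0 : 0 < M := by linarith
  have hp0 : 0 < p := lt_of_lt_of_le (by positivity) hp
  have hXc : (0 : ℝ) ≤ X.card := Nat.cast_nonneg _
  have hdn : (0 : ℝ) ≤ d := Nat.cast_nonneg _
  have hlog : 0 < Real.log d := Real.log_pos (by
    have : (3 : ℝ) ≤ d := by exact_mod_cast hd3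
    linarith)
  have hM2 : (1 : ℝ) ≤ M ^ 2 := one_le_pow₀ hM
  have hXX : (X.card : ℝ) ≤ X.card / p := by
    rw [le_div_iff₀ hp0]
    nlinarith
  by_cases hbig : c1 * (k * d) ≤ Real.log d * (((hit G θ S).card : ℝ) + (hit G θ R).card)
  · refine okp_main hM hcM he.le he1 hXc hp hp1 hσ.le hσ1 hP hne hPQ ?_ ?_ ?_ ?_
    · intro P' Q' h1 h2
      exact hlab.cod P' Q' k w R S θ θ h1 h2 hw hk hθ hθ hcov hbig
    · have h1 : ((hit G θ S ∩ cl lab P).card : ℝ) ≤ ((A1 ∩ cl lab P).card : ℝ) +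
          (((hit G θ S ∩ cl lab P) \ (A1 ∩ cl lab P)).card : ℝ) := by
        have : hit G θ S ∩ cl lab P ⊆ (A1 ∩ cl lab P) ∪
            ((hit G θ S ∩ cl lab P) \ (A1 ∩ cl lab P)) := by
          intro v hv
          simp only [mem_union, mem_sdiff]
          tauto
        exact_mod_cast (card_le_card this).trans (card_union_le _ _)
      have h2 : ((A1 ∩ cl lab P).card : ℝ) ≤ X.card := by
        exact_mod_cast card_le_card (inter_subset_left.trans hA1)
      have h3 : (((A1 ∩ cl lab P) \ (hit G θ S ∩ cl lab P)).card : ℝ) ≥ 0 := Nat.cast_nonneg _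
      unfold Near at hN1
      nlinarith
    · have h1 : ((hit G θ R ∩ cl lab Q).card : ℝ) ≤ ((A2 ∩ cl lab Q).card : ℝ) +
          (((hit G θ R ∩ cl lab Q) \ (A2 ∩ cl lab Q)).card : ℝ) := by
        have : hit G θ R ∩ cl lab Q ⊆ (A2 ∩ cl lab Q) ∪
            ((hit G θ R ∩ cl lab Q) \ (A2 ∩ cl lab Q)) := by
          intro v hv
          simp only [mem_union, mem_sdiff]
          tauto
        exact_mod_cast (card_le_card this).trans (card_union_le _ _)
      have h2 : ((A2 ∩ cl lab Q).card : ℝ) ≤ X.card := by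
        exact_mod_cast card_le_card (inter_subset_left.trans hA2)
      have h3 : (((A2 ∩ cl lab Q) \ (hit G θ R ∩ cl lab Q)).card : ℝ) ≥ 0 := Nat.cast_nonneg _
      unfold Near at hN2
      nlinarith
    · -- degrees into the two classes
      have hσp : σ ≤ p := by
        have h1 : e / (100 * M ^ 2) ≤ 1 / M := by
          rw [div_le_div_iff₀ (by positivity) hM0]
          nlinarith [mul_nonneg hM0.le (sub_nonneg.mpr hM)]
        linarith
      have hdQ : ∀ v, ((nb G v ∩ cl lab Q).card : ℝ) ≤ 2 * p * d := by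
        intro v
        have h1 := (abs_le.mp (hlab.deg v Q)).2
        rw [hQ] at h1
        have h2 : ((nb G v).card : ℝ) ≤ d := by exact_mod_cast hdeg v
        nlinarith
      have hdP : ∀ v, ((nb G v ∩ cl lab P).card : ℝ) ≤ 2 * p * d := by
        intro v
        have h1 := (abs_le.mp (hlab.deg v P)).2
        rw [hP] at h1
        have h2 : ((nb G v).card : ℝ) ≤ d := by exact_mod_cast hdeg v
        nlinarith
      set D1 := (hit G θ S ∩ cl lab P) \ (A1 ∩ cl lab P) with hD1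
      set D2 := (A2 ∩ cl lab Q) \ (hit G θ R ∩ cl lab Q) with hD2
      have hD1c : (D1.card : ℝ) ≤ 4 * e * X.card := by
        have : (((A1 ∩ cl lab P) \ (hit G θ S ∩ cl lab P)).card : ℝ) ≥ 0 := Nat.cast_nonneg _
        unfold Near at hN1
        linarith
      have hD2c : (D2.card : ℝ) ≤ 4 * e * X.card := by
        have : (((hit G θ R ∩ cl lab Q) \ (A2 ∩ cl lab Q)).card : ℝ) ≥ 0 := Nat.cast_nonneg _
        unfold Near at hN2
        linarith
      have s1 : ee G (hit G θ S ∩ cl lab P) (cl lab Q \ hit G θ R) ≤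
          ee G (A1 ∩ cl lab P) (cl lab Q \ hit G θ R) + ee G D1 (cl lab Q \ hit G θ R) := by
        refine ee_union_left _ _ _ _ (fun v hv => ?_)
        rw [hD1]
        simp only [mem_union, mem_sdiff]
        tauto
      have s2 : ee G D1 (cl lab Q \ hit G θ R) ≤ D1.card * (2 * p * d) := by
        refine ee_le_card (fun v => le_trans ?_ (hdQ v))
        exact_mod_cast card_le_card (inter_subset_inter_left sdiff_subset)
      have s3 : ee G (A1 ∩ cl lab P) (cl lab Q \ hit G θ R) ≤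
          ee G (A1 ∩ cl lab P) (cl lab Q \ A2) + ee G (A1 ∩ cl lab P) D2 := by
        refine ee_union_right _ _ _ _ (fun v hv => ?_)
        rw [hD2]
        simp only [mem_union, mem_sdiff, mem_inter] at hv ⊢
        tauto
      have s4 : ee G (A1 ∩ cl lab P) D2 ≤ D2.card * (2 * p * d) := by
        rw [ee_symm]
        refine ee_le_card (fun v => le_trans ?_ (hdP v))
        exact_mod_cast card_le_card (inter_subset_inter_left inter_subset_right)
      have s5 : (D1.card : ℝ) * (2 * p * d) ≤ 4 * e * X.card * (2 * p * d) :=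
        mul_le_mul_of_nonneg_right hD1c (by positivity)
      have s6 : (D2.card : ℝ) * (2 * p * d) ≤ 4 * e * X.card * (2 * p * d) :=
        mul_le_mul_of_nonneg_right hD2c (by positivity)
      nlinarith
  · push Not at hbig
    have h1 : Real.log d * (((hit G θ S).card : ℝ) + (hit G θ R).card) <
        Real.log d * (e / M ^ 2 * X.card) := by
      calc Real.log d * (((hit G θ S).card : ℝ) + (hit G θ R).card) < c1 * (k * d) := hbig
        _ ≤ c1 * (K * (Real.log d * X.card)) := mul_le_mul_of_nonneg_left hkd hc1.le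
        _ = (c1 * K) * (Real.log d * X.card) := by ring
        _ ≤ (e / M ^ 2) * (Real.log d * X.card) :=
            mul_le_mul_of_nonneg_right hc1K (by positivity)
        _ = Real.log d * (e / M ^ 2 * X.card) := by ring
    have h2 := lt_of_mul_lt_mul_left h1 hlog.le
    refine okp_small hM he.le (by positivity) hdeg ?_
    have h3 : (0 : ℝ) ≤ (hit G θ R).card := Nat.cast_nonneg _
    have h4 : e / M ^ 2 * X.card ≤ e * (X.card / p) / M ^ 2 := by
      have : e / M ^ 2 * X.card ≤ e / M ^ 2 * (X.card / p) :=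
        mul_le_mul_of_nonneg_left hXX (by positivity)
      calc e / M ^ 2 * X.card ≤ e / M ^ 2 * (X.card / p) := this
        _ = e * (X.card / p) / M ^ 2 := by ring
    linarith

/-- classes close to the class `b0` -/
theorem near_class {β : Type} {R : β → β → Prop} {e X0 M p : ℝ} {d L : ℕ} (hM : 1 ≤ M)
    (hcM : (Fintype.card T : ℝ) = M)
    (hd0 : 0 < d) (hlow : ∀ v, (d : ℝ) / 2 ≤ ((nb G v).card : ℝ)) {A B : β → Finset V}
    (h1 : ∀ b b', R b b' → OKp G lab e d X0 M (A b) (B b'))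
    (h2 : ∀ b b', R b b' → OKp G lab e d X0 M (B b) (A b'))
    (hew : ∀ b b', ∃ f : ℕ → β, f 0 = b ∧ f (2 * L) = b' ∧ ∀ i < 2 * L, R (f i) (f (i + 1)))
    (b b0 : β) {P : Finset T} (hP : den P = p) :
    Near (A b ∩ cl lab P) (A b0 ∩ cl lab P) (160 * L * e * (p * X0)) := by
  have hM0 : 0 < M := by linarith
  have key : ∀ b b0 : β, (((A b ∩ cl lab P) \ (A b0 ∩ cl lab P)).card : ℝ) ≤
      80 * L * e * (p * X0) := by
    intro b b0
    obtain ⟨f, f1, f2, f3⟩ := hew b b0
    have e1 : (A b ∩ cl lab P) \ (A b0 ∩ cl lab P) = (A b \ A b0) ∩ cl lab P := by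
      ext v
      simp only [mem_sdiff, mem_inter]
      tauto
    rw [e1, card_cl]
    calc ∑ x ∈ P, (((A b \ A b0) ∩ cl lab {x}).card : ℝ)
        ≤ ∑ _x ∈ P, (L : ℝ) * (80 * (e * X0 / M)) := by
          refine Finset.sum_le_sum (fun x _ => ?_)
          have := chain hM hcM hd0 hlow h1 h2 f x L f3
          rwa [f1, f2] at this
      _ = P.card * ((L : ℝ) * (80 * (e * X0 / M))) := by rw [Finset.sum_const, nsmul_eq_mul]
      _ = 80 * L * e * (p * X0) := by
          rw [← hP]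
          unfold den
          rw [hcM]
          field_simp
  have k1 := key b b0
  have k2 := key b0 b
  unfold Near
  linarith

end core

/-- BLOCK TRF -/
theorem stmt_TRF (hCODX : Stmt_CODX.{u}) : Stmt_TRF.{u} := by
  intro n L ε hε
  -- the constant
  set e : ℝ := min (ε / (10000 * (L + 1))) (1 / 100) with he_def
  have hL : (0 : ℝ) ≤ L := Nat.cast_nonneg _
  have he : 0 < e := by
    rw [he_def]
    exact lt_min (by positivity) (by norm_num)
  have he1 : e ≤ 1 / 100 := min_le_right _ _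
  have he2 : e * (10000 * (L + 1)) ≤ ε := by
    have h1 : e ≤ ε / (10000 * (L + 1)) := min_le_left _ _
    rwa [le_div_iff₀ (by positivity)] at h1
  refine ⟨e, he, ?_⟩
  intro M hM
  rcases Nat.eq_zero_or_pos n with hn0 | hn
  · refine ⟨1, 1, 1, 0, one_pos, one_pos, one_pos, ?_⟩
    intro T β _ _ P R p V _ G F d lab X A1 A2 hpat
    exact absurd hpat.n0 (by omega)
  have hMr : (1 : ℝ) ≤ (M : ℝ) := by exact_mod_cast hM
  have hM0 : (0 : ℝ) < (M : ℝ) := by linarith
  -- the constants of CODX for all proportions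
  have hex : ∀ j : Fin M, ∃ (K : ℝ) (d0 : ℕ), 0 < K ∧
      ∀ {T β : Type} [Fintype T] [Fintype β] (P : β → Finset T) (R : β → β → Prop) (L : ℕ)
      {V : Type u} [Fintype V] (G F : SimpleGraph V) (d : ℕ) (lab : V → T) (X A1 A2 : Finset V),
      IsPat P R n L (((j : ℕ) + 1 : ℝ) / M) → d0 ≤ d → (∀ v, (nb G v).card ≤ d) → F ≤ G →
      Conn F X → A1 ⊆ X →
      A2 ⊆ X → n * (((j : ℕ) + 1 : ℝ) / M) * d ≤ 4 * (X.card : ℝ) →
      (X.filter (fun v => ((nb G v ∩ X).card : ℝ) ≤ n * (((j : ℕ) + 1 : ℝ) / M) * d / 4)).card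
        ≤ 30 →
      Sep G lab P R (n * (((j : ℕ) + 1 : ℝ) / M) * d) (e * X.card) A1 A2 →
      Sep G lab P R (n * (((j : ℕ) + 1 : ℝ) / M) * d) (e * X.card) A2 A1 →
      ∃ (R1 R2 : Finset V) (k : ℕ) (w : ℕ → V) (θ : ℝ), (A1 = A2 → R1 = R2) ∧ LWalk G k w ∧
        1 ≤ k ∧ 0 ≤ θ ∧ (∀ v ∈ R1 ∪ R2, ∃ i ≤ k, w i = v) ∧
        (k : ℝ) * d ≤ K * (Real.log d * X.card) ∧
        ∀ b, Near (A1 ∩ cl lab (P b)) (hit G θ (R2 ∩ cl lab (PN P R b)) ∩ cl lab (P b))
            (4 * e * X.card) ∧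
          Near (A2 ∩ cl lab (P b)) (hit G θ (R1 ∩ cl lab (PN P R b)) ∩ cl lab (P b))
            (4 * e * X.card) := by
    intro j
    refine hCODX n (((j : ℕ) + 1 : ℝ) / M) e hn (by positivity) ?_ he
    rw [div_le_one hM0]
    have := j.2
    exact_mod_cast this
  choose K d1 hK hcodx using hex
  set Km : ℝ := ∑ j, K j with hKm
  set dm : ℕ := ∑ j, d1 j with hdm
  have hKle : ∀ j, K j ≤ Km := fun j =>
    Finset.single_le_sum (f := K) (fun i _ => (hK i).le) (mem_univ j)
  have hdle : ∀ j, d1 j ≤ dm := fun j =>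
    Finset.single_le_sum (f := d1) (fun i _ => Nat.zero_le _) (mem_univ j)
  have hKm0 : 0 < Km := lt_of_lt_of_le (hK ⟨0, hM⟩) (hKle _)
  refine ⟨e / (100 * (M : ℝ) ^ 2), e / (Km * (M : ℝ) ^ 2), 1 / 2, max dm 3, by positivity,
    by positivity, by norm_num, ?_⟩
  intro T β _ _ P R p V _ G F d lab X A1 A2 hpat hcT hd hdeg hlow hlab hFG hconn hA1 hA2 hXd hX30
    hS12 hS21 hE
  have hcM : (Fintype.card T : ℝ) = (M : ℝ) := by rw [hcT]
  have hd3 : 3 ≤ d := le_trans (le_max_right _ _) hd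
  have hd0 : 0 < d := by omega
  have hdm' : dm ≤ d := le_trans (le_max_left _ _) hd
  have hp0 := hpat.p0
  have hXc : (0 : ℝ) ≤ X.card := Nat.cast_nonneg _
  have hdn : (0 : ℝ) ≤ d := Nat.cast_nonneg _
  have hX0 : (0 : ℝ) ≤ X.card / p := by positivity
  by_cases hβ : Nonempty β
  swap
  · refine ⟨∅, ∅, fun _ => rfl, ?_, ?_, ?_⟩
    · intro P' Q'
      have h1 : (0 : ℝ) ≤ ε * (den P' * den Q') * d * (X.card / p) := by
        have := den_nonneg P'
        have := den_nonneg Q'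
        positivity
      simp only [empty_inter]
      unfold ee
      simp only [sum_empty]
      exact ⟨h1, h1⟩
    · intro P'
      have h1 : (0 : ℝ) ≤ ε * den P' * (X.card / p) := by
        have := den_nonneg P'
        positivity
      simp only [empty_inter, card_empty, Nat.cast_zero, mul_zero, sub_zero, abs_zero]
      exact ⟨h1, h1⟩
    · intro b
      exact absurd ⟨b⟩ hβ
  obtain ⟨b0⟩ := hβ
  -- the proportion
  have hPc : ∀ b, ((P b).card : ℝ) = p * M := by
    intro b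
    have := hpat.dn b
    unfold den at this
    rw [hcM, div_eq_iff hM0.ne'] at this
    exact this
  have hcard1 : 1 ≤ (P b0).card := card_pos.mpr (hpat.ne b0)
  have hcardM : (P b0).card ≤ M := by
    rw [← hcT]
    exact card_le_univ _
  set j : Fin M := ⟨(P b0).card - 1, by omega⟩ with hj
  have hpj : p = (((j : ℕ) + 1 : ℝ) / M) := by
    rw [eq_div_iff hM0.ne', ← hPc b0, hj]
    push_cast [Nat.cast_sub hcard1]
    ring
  have hp : 1 / (M : ℝ) ≤ p := by
    rw [hpj]
    apply div_le_div_of_nonneg_right _ hM0.le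
    have : (0 : ℝ) ≤ ((j : ℕ) : ℝ) := Nat.cast_nonneg _
    linarith
  have hp1 := hpat.p1
  obtain ⟨R1, R2, k, w, θ, hR12, hw, hk, hθ, hcov, hkd, hnear⟩ :=
    hcodx j P R L G F d lab X A1 A2 (by rw [← hpj]; exact hpat) ((hdle j).trans hdm') hdeg hFG
      hconn hA1 hA2 (by rw [← hpj]; exact hXd) (by rw [← hpj]; exact hX30)
      (by rw [← hpj]; exact hS12) (by rw [← hpj]; exact hS21)
  -- the codes
  set Af : β → Finset V := fun b => hit G θ (R2 ∩ cl lab (PN P R b)) with hAf
  set Bf : β → Finset V := fun b => hit G θ (R1 ∩ cl lab (PN P R b)) with hBf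
  have hc1K : e / (Km * (M : ℝ) ^ 2) * K j ≤ e / (M : ℝ) ^ 2 := by
    have h1 : e / (Km * (M : ℝ) ^ 2) * K j ≤ e / (Km * (M : ℝ) ^ 2) * Km :=
      mul_le_mul_of_nonneg_left (hKle j) (by positivity)
    have h2 : e / (Km * (M : ℝ) ^ 2) * Km = e / (M : ℝ) ^ 2 := by
      field_simp
    linarith
  have hcardeq : ∀ b b', (P b).card = (P b').card := by
    intro b b'
    have : ((P b).card : ℝ) = ((P b').card : ℝ) := by rw [hPc, hPc]
    exact_mod_cast this
  have hcov1 : ∀ b b', ∀ v ∈ (R1 ∩ cl lab (PN P R b')) ∪ (R2 ∩ cl lab (PN P R b)),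
      ∃ i ≤ k, w i = v := by
    intro b b' v hv
    refine hcov v ?_
    simp only [mem_union, mem_inter] at hv ⊢
    tauto
  have hcov2 : ∀ b b', ∀ v ∈ (R2 ∩ cl lab (PN P R b')) ∪ (R1 ∩ cl lab (PN P R b)),
      ∃ i ≤ k, w i = v := by
    intro b b' v hv
    refine hcov v ?_
    simp only [mem_union, mem_inter] at hv ⊢
    tauto
  have hAB : ∀ b b', R b b' → OKp G lab e d (X.card / p) M (Af b) (Bf b') := by
    intro b b' hR
    exact pair_ok hMr hcM he he1 hp hp1 (by positivity) (le_refl _) hd3 hdeg hlab (by positivity)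
      hc1K (hpat.dn b) (hpat.dn b') (hpat.ne b) (hcardeq b b') hw hk hθ (hcov1 b b') hkd hA1 hA2
      (hnear b).1 (hnear b').2 (hE b b' hR).1
  have hBA : ∀ b b', R b b' → OKp G lab e d (X.card / p) M (Bf b) (Af b') := by
    intro b b' hR
    exact pair_ok hMr hcM he he1 hp hp1 (by positivity) (le_refl _) hd3 hdeg hlab (by positivity)
      hc1K (hpat.dn b) (hpat.dn b') (hpat.ne b) (hcardeq b b') hw hk hθ (hcov2 b b') hkd hA2 hA1
      (hnear b).2 (hnear b').1 (hE b b' hR).2
  have hlow' : ∀ v, (d : ℝ) / 2 ≤ ((nb G v).card : ℝ) := by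
    intro v
    have := hlow v
    linarith
  -- a neighbour of the class `b0`
  obtain ⟨b1, hb1⟩ : ∃ b1, R b0 b1 := by
    have h1 : (univ.filter (fun b' => R b0 b')).card = n := hpat.reg b0
    have h2 : (univ.filter (fun b' => R b0 b')).Nonempty := card_pos.mp (by omega)
    obtain ⟨b1, hb1⟩ := h2
    exact ⟨b1, (mem_filter.mp hb1).2⟩
  -- degrees into one label
  have hdx : ∀ v (x : T), ((nb G v ∩ cl lab {x}).card : ℝ) ≤ 2 * d / M := by
    intro v x
    have h1 := (abs_le.mp (hlab.deg v {x})).2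
    rw [den_single, hcM] at h1
    have h2 : ((nb G v).card : ℝ) ≤ d := by exact_mod_cast hdeg v
    have h3 : e / (100 * (M : ℝ) ^ 2) ≤ 1 / M := by
      rw [div_le_div_iff₀ (by positivity) hM0]
      nlinarith [mul_nonneg hM0.le (sub_nonneg.mpr hMr)]
    have h4 : e / (100 * (M : ℝ) ^ 2) * d ≤ 1 / M * d := mul_le_mul_of_nonneg_right h3 hdn
    have h5 : 1 / (M : ℝ) * ((nb G v).card : ℝ) ≤ 1 / M * d :=
      mul_le_mul_of_nonneg_left h2 (by positivity)
    have h6 : 2 * (d : ℝ) / M = 1 / M * d + 1 / M * d := by ring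
    rw [h6]
    linarith
  -- energy between the final sets, one pair of labels
  have hfin : ∀ (A B : β → Finset V), (∀ b b', R b b' → OKp G lab e d (X.card / p) M (A b) (B b')) →
      (∀ b b', R b b' → OKp G lab e d (X.card / p) M (B b) (A b')) → ∀ x y : T,
      ee G (A b0 ∩ cl lab {x}) (cl lab {y} \ B b0) ≤
        ε * d * (X.card / p) / (M : ℝ) ^ 2 := by
    intro A B hAB hBA x y
    obtain ⟨f, f1, f2, f3⟩ := hpat.ew b1 b0
    have h1 := chain hMr hcM hd0 hlow' hBA hAB f y L f3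
    rw [f1, f2] at h1
    have h2 : ee G (A b0 ∩ cl lab {x}) (cl lab {y} \ B b0) ≤
        ee G (A b0 ∩ cl lab {x}) (cl lab {y} \ B b1) +
          ee G (A b0 ∩ cl lab {x}) ((B b1 \ B b0) ∩ cl lab {y}) := by
      refine ee_union_right _ _ _ _ (fun v hv => ?_)
      simp only [mem_union, mem_sdiff, mem_inter] at hv ⊢
      tauto
    have h3 : ee G (A b0 ∩ cl lab {x}) ((B b1 \ B b0) ∩ cl lab {y}) ≤
        (((B b1 \ B b0) ∩ cl lab {y}).card : ℝ) * (2 * d / M) := by
      rw [ee_symm]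
      refine ee_le_card (fun v => le_trans ?_ (hdx v x))
      exact_mod_cast card_le_card (inter_subset_inter_left inter_subset_right)
    have h4 : (((B b1 \ B b0) ∩ cl lab {y}).card : ℝ) * (2 * d / M) ≤
        (L * (80 * (e * (X.card / p) / M))) * (2 * d / M) :=
      mul_le_mul_of_nonneg_right h1 (by positivity)
    have h5 := (hAB b0 b1 hb1).1 x y
    have h6 : (L * (80 * (e * (X.card / p) / M))) * (2 * d / M) =
        160 * L * e * d * (X.card / p) / (M : ℝ) ^ 2 := by
      field_simp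
      ring
    have h7 : (19 + 160 * L) * e * d * (X.card / p) / (M : ℝ) ^ 2 ≤
        ε * d * (X.card / p) / (M : ℝ) ^ 2 := by
      apply div_le_div_of_nonneg_right _ (by positivity)
      apply mul_le_mul_of_nonneg_right _ hX0
      apply mul_le_mul_of_nonneg_right _ hdn
      nlinarith
    have h8 : (19 + 160 * L) * e * d * (X.card / p) / (M : ℝ) ^ 2 =
        19 * e * d * (X.card / p) / (M : ℝ) ^ 2 +
          160 * L * e * d * (X.card / p) / (M : ℝ) ^ 2 := by ring
    linarith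
  have hfin2 : ∀ (A B : β → Finset V), (∀ b b', R b b' → OKp G lab e d (X.card / p) M (A b) (B b')) →
      (∀ b b', R b b' → OKp G lab e d (X.card / p) M (B b) (A b')) → ∀ P' Q' : Finset T,
      ee G (A b0 ∩ cl lab P') (cl lab Q' \ B b0) ≤
        ε * (den P' * den Q') * d * (X.card / p) := by
    intro A B hAB hBA P' Q'
    rw [ee_cl_left]
    calc ∑ x ∈ P', ee G (A b0 ∩ cl lab {x}) (cl lab Q' \ B b0)
        = ∑ x ∈ P', ∑ y ∈ Q', ee G (A b0 ∩ cl lab {x}) (cl lab {y} \ B b0) :=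
          Finset.sum_congr rfl (fun x _ => ee_cl_right _ _ _)
      _ ≤ ∑ _x ∈ P', ∑ _y ∈ Q', ε * d * (X.card / p) / (M : ℝ) ^ 2 :=
          Finset.sum_le_sum (fun x _ => Finset.sum_le_sum (fun y _ => hfin A B hAB hBA x y))
      _ = P'.card * (Q'.card * (ε * d * (X.card / p) / (M : ℝ) ^ 2)) := by
          rw [Finset.sum_const, Finset.sum_const, nsmul_eq_mul, nsmul_eq_mul]
      _ = ε * (den P' * den Q') * d * (X.card / p) := by
          unfold den
          rw [hcM]
          field_simp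
  have hfin3 : ∀ (A B : β → Finset V), (∀ b b', R b b' → OKp G lab e d (X.card / p) M (A b) (B b')) →
      ∀ P' : Finset T, |((A b0 ∩ cl lab P').card : ℝ) - den P' * (A b0).card| ≤
        ε * den P' * (X.card / p) := by
    intro A B hAB P'
    have h1 : ((A b0 ∩ cl lab P').card : ℝ) - den P' * (A b0).card =
        ∑ x ∈ P', (((A b0 ∩ cl lab {x}).card : ℝ) - (A b0).card / M) := by
      rw [Finset.sum_sub_distrib, ← card_cl, Finset.sum_const, nsmul_eq_mul]
      unfold den
      rw [hcM]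
      ring
    rw [h1]
    calc |∑ x ∈ P', (((A b0 ∩ cl lab {x}).card : ℝ) - (A b0).card / M)|
        ≤ ∑ x ∈ P', |((A b0 ∩ cl lab {x}).card : ℝ) - (A b0).card / M| :=
          Finset.abs_sum_le_sum_abs _ _
      _ ≤ ∑ _x ∈ P', e * (X.card / p) / M :=
          Finset.sum_le_sum (fun x _ => (hAB b0 b1 hb1).2 x)
      _ = e * den P' * (X.card / p) := by
          rw [Finset.sum_const, nsmul_eq_mul]
          unfold den
          rw [hcM]
          ring
      _ ≤ ε * den P' * (X.card / p) := by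
          apply mul_le_mul_of_nonneg_right _ hX0
          apply mul_le_mul_of_nonneg_right _ (den_nonneg _)
          nlinarith
  have hpX : p * (X.card / p) = X.card := by
    field_simp
  have hnr : ∀ (A B : β → Finset V) (A1 : Finset V),
      (∀ b b', R b b' → OKp G lab e d (X.card / p) M (A b) (B b')) →
      (∀ b b', R b b' → OKp G lab e d (X.card / p) M (B b) (A b')) →
      (∀ b, Near (A1 ∩ cl lab (P b)) (A b ∩ cl lab (P b)) (4 * e * X.card)) → ∀ b,
      Near (A1 ∩ cl lab (P b)) (A b0 ∩ cl lab (P b)) (ε * X.card) := by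
    intro A B A1 hAB hBA hN b
    have h1 := near_class hMr hcM hd0 hlow' hAB hBA hpat.ew b b0 (hpat.dn b)
    have h2 := Near.trans' (hN b) h1
    rw [hpX] at h2
    unfold Near at h2 ⊢
    refine h2.trans ?_
    have : 4 * e * X.card + 160 * L * e * X.card = (4 + 160 * L) * e * X.card := by ring
    rw [this]
    apply mul_le_mul_of_nonneg_right _ hXc
    nlinarith
  refine ⟨Af b0, Bf b0, ?_, ?_, ?_, ?_⟩
  · intro h
    rw [hAf, hBf]
    simp only
    rw [hR12 h]
  · intro P' Q'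
    exact ⟨hfin2 Af Bf hAB hBA P' Q', hfin2 Bf Af hBA hAB P' Q'⟩
  · intro P'
    exact ⟨hfin3 Af Bf hAB P', hfin3 Bf Af hBA P'⟩
  · intro b
    exact ⟨hnr Af Bf A1 hAB hBA (fun b => (hnear b).1) b,
      hnr Bf Af A2 hBA hAB (fun b => (hnear b).2) b⟩

end Pool.Agent.Work.MP_db9399_bg.helper96
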